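import Pool.Agent.BEB.Stmts

/-!
# Squad BEB, row WEX: the weak equation can be tested with the Sobolev space
-/

set_option autoImplicit false

namespace Pool.Agent.BEB.H39

open Set Filter Topology MeasureTheory
open scoped InnerProductSpace ENNReal
open Pool.Agent.BE01 Pool.Agent.BEB

/-- row WEX -/
theorem wex : WexStmt := by
  intro Ω v f G F _ hw hv
  have hg : ∀ F' : Lp (En 3) 2 (mu Ω), ∫ x, ⟪G x, F' x⟫_ℝ ∂(mu Ω) = ⟪G, F'⟫_ℝ := fun F' =>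
    (L2.inner_def (𝕜 := ℝ) G F').symm
  have hf : ∀ v' : Lp ℝ 2 (mu Ω), ∫ x, f x * v' x ∂(mu Ω) = ⟪f, v'⟫_ℝ := by
    intro v'
    rw [L2.inner_def]
    refine integral_congr_ae (Eventually.of_forall fun x => ?_)
    simp only [RCLike.inner_apply, conj_trivial]
    ring
  rw [hg, hf]
  have hcl : IsClosed {P : Lp ℝ 2 (mu Ω) × Lp (En 3) 2 (mu Ω) | ⟪G, P.2⟫_ℝ = ⟪f, P.1⟫_ℝ} :=
    isClosed_eq (continuous_const.inner continuous_snd) (continuous_const.inner continuous_fst)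
  have hsub : {P : Lp ℝ 2 (mu Ω) × Lp (En 3) 2 (mu Ω) |
      ∃ ψ, Tst Ω ψ ∧ P.1 =ᵐ[mu Ω] ψ ∧ P.2 =ᵐ[mu Ω] gradient ψ} ⊆
      {P : Lp ℝ 2 (mu Ω) × Lp (En 3) 2 (mu Ω) | ⟪G, P.2⟫_ℝ = ⟪f, P.1⟫_ℝ} := by
    rintro ⟨p1, p2⟩ ⟨ψ, hψ, h1, h2⟩
    show ⟪G, p2⟫_ℝ = ⟪f, p1⟫_ℝ
    rw [← hg, ← hf]
    have e1 : ∫ x, ⟪G x, p2 x⟫_ℝ ∂(mu Ω) = ∫ x, ⟪G x, gradient ψ x⟫_ℝ ∂(mu Ω) := by
      refine integral_congr_ae ?_
      filter_upwards [h2] with x hx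
      rw [hx]
    have e2 : ∫ x, f x * p1 x ∂(mu Ω) = ∫ x, f x * ψ x ∂(mu Ω) := by
      refine integral_congr_ae ?_
      filter_upwards [h1] with x hx
      rw [hx]
    rw [e1, e2]
    exact hw ψ hψ
  exact closure_minimal hsub hcl hv

end Pool.Agent.BEB.H39
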